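import Pool.Agent.Q295.KU.Stm

set_option autoImplicit false

/-!
# Project KU: assembly
-/

namespace Pool.Agent.Q295.KU

open Classical Filter Topology

noncomputable section

theorem Am_symm {n : ℕ} (s : Fin n → Fin n → Bool) (i j : Fin n) : Am s i j = Am s j i := by
  unfold Am
  rcases lt_trichotomy i j with h | h | h
  · rw [if_pos h, if_neg h.not_gt, if_pos h]
  · subst h; rfl
  · rw [if_neg h.not_gt, if_pos h, if_pos h]

theorem Am_diag {n : ℕ} (s : Fin n → Fin n → Bool) (i : Fin n) : Am s i i = 0 := by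
  unfold Am
  rw [if_neg (lt_irrefl i), if_neg (lt_irrefl i)]

theorem W8_nonneg {n : ℕ} {δ : ℝ} (h0 : 0 ≤ δ) (h1 : δ ≤ 1 / 2) (s : Fin n → Fin n → Bool) :
    0 ≤ W8 δ s := by
  refine Finset.prod_nonneg fun i _ => Finset.prod_nonneg fun j _ => ?_
  split_ifs <;> linarith

/-- Deterministic part. -/
theorem det (hFOC : S_FOC) (hSOC : S_SOC) (hRHO : S_RHO) (hCNT : S_CNT) {n : ℕ} (hn : 0 < n)
    (A : Fin n → Fin n → ℝ) (hA : ∀ i j, A i j = A j i) (hd : ∀ i, A i i = 0) (μ κ c : ℝ)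
    (hμ : 0 < μ) (hκ : 0 < κ) (hc : 0 < c) (hQ : QB (fun i j => A i j - μ) κ)
    (hrow : ∀ i, c * μ * n ≤ ∑ j, A i j) (h8 : 8 * κ ≤ μ * n) (h16 : 16 * κ ^ 2 < (c * μ * n) ^ 2)
    (θ : Fin n → ℝ) (hθ : IsLocalMin (En A) θ) :
    ∀ i j, ∃ k : ℤ, θ i - θ j = 2 * Real.pi * (k : ℝ) := by
  have h1 := hFOC n A hA θ hθ
  have h2 := hSOC n A θ hθ
  have h3 := hRHO n A μ κ θ hμ hκ.le hQ h8 h2
  have h4 : ∀ i, 0 ≤ ∑ j, A i j * Real.cos (θ i - θ j) := by
    intro i
    have h5 := h2 (Pi.single i 1)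
    have h6 : ∑ k, ∑ l, A k l * Real.cos (θ k - θ l) *
        ((Pi.single i (1 : ℝ) : Fin n → ℝ) k - (Pi.single i (1 : ℝ) : Fin n → ℝ) l) ^ 2 =
        2 * ∑ j, A i j * Real.cos (θ i - θ j) := by
      have e : ∀ k l, A k l * Real.cos (θ k - θ l) *
          ((Pi.single i (1 : ℝ) : Fin n → ℝ) k - (Pi.single i (1 : ℝ) : Fin n → ℝ) l) ^ 2 =
          (if k = i then A i l * Real.cos (θ i - θ l) else 0) +
            (if l = i then A i k * Real.cos (θ i - θ k) else 0) := by
        intro k l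
        by_cases hk : k = i
        · subst hk
          by_cases hl : l = k
          · subst hl
            rw [hd]; simp
          · rw [Pi.single_eq_same, Pi.single_eq_of_ne hl, if_pos rfl, if_neg hl]; ring
        · by_cases hl : l = i
          · subst hl
            rw [Pi.single_eq_same, Pi.single_eq_of_ne hk, if_neg hk, if_pos rfl, hA k l,
              ← Real.cos_neg (θ k - θ l), neg_sub]
            ring
          · rw [Pi.single_eq_of_ne hk, Pi.single_eq_of_ne hl, if_neg hk, if_neg hl]; ring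
      simp only [e, Finset.sum_add_distrib]
      have e1 : ∑ k : Fin n, ∑ l : Fin n, (if k = i then A i l * Real.cos (θ i - θ l) else 0) =
          ∑ j, A i j * Real.cos (θ i - θ j) := by
        rw [Finset.sum_comm]
        refine Finset.sum_congr rfl fun l _ => ?_
        rw [Finset.sum_ite_eq' Finset.univ i, if_pos (Finset.mem_univ i)]
      have e2 : ∑ k : Fin n, ∑ l : Fin n, (if l = i then A i k * Real.cos (θ i - θ k) else 0) =
          ∑ j, A i j * Real.cos (θ i - θ j) := by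
        refine Finset.sum_congr rfl fun k _ => ?_
        rw [Finset.sum_ite_eq' Finset.univ i, if_pos (Finset.mem_univ i)]
      rw [e1, e2]
      ring
    rw [h6] at h5
    linarith
  have h7 := hCNT n A μ κ c θ hn hA hμ hκ hc hQ hrow h16 h1 h4 h3
  intro i j
  obtain ⟨k, hk⟩ := (Real.cos_eq_one_iff _).1 (h7 i j)
  exact ⟨k, by rw [← hk]; ring⟩

theorem final (hFOC : S_FOC) (hSOC : S_SOC) (hRHO : S_RHO) (hCNT : S_CNT) (hEXW : S_EXW)
    (hROW : S_ROW) (hNRM : S_NRM) :
    ∀ ε : ℝ, 0 < ε → ∀ δ : ℕ → ℝ, (∀ n : ℕ, 0 ≤ δ n ∧ δ n ≤ 1/2) →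
      (∀ᶠ n : ℕ in Filter.atTop,
        (1 + ε) * Real.sqrt (Real.log ((n : ℕ) : ℝ) / (2 * ((n : ℕ) : ℝ))) ≤ δ n) →
      Filter.Tendsto
        (fun n : ℕ => ∑ s : Fin n → Fin n → Bool,
          if (∀ θ : Fin n → ℝ, IsLocalMin (En (Am s)) θ →
                ∀ i j : Fin n, ∃ k : ℤ, θ i - θ j = 2 * Real.pi * (k : ℝ))
          then W8 (δ n) s else (0 : ℝ)) Filter.atTop (nhds (1 : ℝ)) := by
  intro ε hε δ hδ hev
  set c : ℝ := ε / (4 * (1 + ε)) with hc
  have hc0 : 0 < c := by positivity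
  have hlog : Tendsto (fun n : ℕ => Real.log (n : ℝ)) atTop atTop :=
    Real.tendsto_log_atTop.comp tendsto_natCast_atTop_atTop
  have hlow : Tendsto (fun n : ℕ => 1 - 2 * Real.exp (-(2 * (n : ℝ))) -
      Real.exp (-(ε * Real.log n))) atTop (𝓝 (1 - 2 * 0 - 0)) := by
    refine Tendsto.sub (Tendsto.sub tendsto_const_nhds (Tendsto.const_mul 2 ?_)) ?_
    · exact Real.tendsto_exp_neg_atTop_nhds_zero.comp
        ((tendsto_natCast_atTop_atTop (R := ℝ)).const_mul_atTop (by norm_num))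
    · exact Real.tendsto_exp_neg_atTop_nhds_zero.comp (hlog.const_mul_atTop hε)
  rw [mul_zero, sub_zero, sub_zero] at hlow
  refine tendsto_of_tendsto_of_tendsto_of_le_of_le' hlow tendsto_const_nhds ?_ ?_
  · have hn1 : ∀ᶠ n : ℕ in atTop, 4 * (1 + ε) / ε ≤ (n : ℝ) :=
      tendsto_natCast_atTop_atTop.eventually (eventually_ge_atTop _)
    have hl1 : ∀ᶠ n : ℕ in atTop, max 7200 (1800 / c ^ 2 + 1) ≤ Real.log (n : ℝ) :=
      hlog.eventually (eventually_ge_atTop _)
    filter_upwards [hev, hn1, hl1, eventually_gt_atTop 0] with n hev hn1 hl1 hn0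
    obtain ⟨hδ0, hδ1⟩ := hδ n
    have hnR : (0 : ℝ) < n := by exact_mod_cast hn0
    set ℓ := Real.log (n : ℝ) with hℓ
    have hℓ1 : 7200 ≤ ℓ := (le_max_left _ _).trans hl1
    have hℓ2 : 1800 / c ^ 2 + 1 ≤ ℓ := (le_max_right _ _).trans hl1
    have hs : 0 < √(ℓ / (2 * n)) := Real.sqrt_pos.2 (by positivity)
    have hδp : 0 < δ n := lt_of_lt_of_le (by positivity) hev
    set μ : ℝ := 2 * δ n with hμ
    have hμ0 : 0 < μ := by positivity
    -- μ² n ≥ 2 (1+ε)² ℓ
    have hμn : 2 * (1 + ε) ^ 2 * ℓ ≤ μ ^ 2 * n := by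
      have h1 : ((1 + ε) * √(ℓ / (2 * n))) ^ 2 ≤ δ n ^ 2 :=
        pow_le_pow_left₀ (by positivity) hev 2
      rw [mul_pow, Real.sq_sqrt (by positivity)] at h1
      have h2 : (1 + ε) ^ 2 * (ℓ / (2 * n)) * (4 * n) ≤ δ n ^ 2 * (4 * n) :=
        mul_le_mul_of_nonneg_right h1 (by positivity)
      have h3 : (1 + ε) ^ 2 * (ℓ / (2 * n)) * (4 * n) = 2 * (1 + ε) ^ 2 * ℓ := by
        field_simp; ring
      rw [h3] at h2
      rw [hμ]
      linarith
    have hμn1 : 2 * ℓ ≤ μ ^ 2 * n := by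
      have h1 : 1 ≤ (1 + ε) ^ 2 := by nlinarith
      have h2 : 1 * ℓ ≤ (1 + ε) ^ 2 * ℓ := mul_le_mul_of_nonneg_right h1 (by linarith)
      linarith
    have hc1 : c * (1 + ε) = ε / 4 := by rw [hc]; field_simp
    have hn2 : (1 + ε) ≤ ε / 4 * n := by
      rw [div_le_iff₀ hε] at hn1
      linarith
    have hkey : 1 + ε / 2 ≤ (1 + ε) * (((1 - c) * n - 1) / n) := by
      have : (1 + ε) * (((1 - c) * n - 1) / n) = (1 + ε) - c * (1 + ε) - (1 + ε) / n := by
        field_simp
      rw [this, hc1]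
      have : (1 + ε) / n ≤ ε / 4 := by rw [div_le_iff₀ hnR]; exact hn2
      linarith
    have hcn : 1 ≤ (1 - c) * n := by
      by_contra hcon
      push Not at hcon
      have : (1 + ε) * (((1 - c) * n - 1) / n) ≤ 0 :=
        mul_nonpos_of_nonneg_of_nonpos (by positivity)
          (div_nonpos_of_nonpos_of_nonneg (by linarith) hnR.le)
      linarith
    have hnrm := hNRM n (δ n) hn0 hδ0 hδ1
    have hrow := hROW n (δ n) c hn0 hδ0 hδ1 hcn
    obtain ⟨hW1, -⟩ := hEXW n (δ n) hδ0 hδ1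
    -- the row bound
    have hrow2 : ∀ i : Fin n, (∑ s : Fin n → Fin n → Bool,
        if ∑ j, Am s i j < c * (2 * δ n) * n then W8 (δ n) s else 0) ≤
        Real.exp (-((1 + ε) * ℓ)) := by
      intro i
      refine (hrow i).trans (Real.exp_le_exp.2 (neg_le_neg ?_))
      rw [← hμ]
      have e1 : (μ * ((1 - c) * n - 1)) ^ 2 / (2 * n) =
          (μ ^ 2 * n) / 2 * (((1 - c) * n - 1) / n) ^ 2 := by
        field_simp
      rw [e1]
      have e2 : (1 + ε) ^ 2 * ℓ * (((1 - c) * n - 1) / n) ^ 2 ≤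
          (μ ^ 2 * n) / 2 * (((1 - c) * n - 1) / n) ^ 2 :=
        mul_le_mul_of_nonneg_right (by linarith) (by positivity)
      have e3 : (1 + ε / 2) ^ 2 ≤ ((1 + ε) * (((1 - c) * n - 1) / n)) ^ 2 :=
        pow_le_pow_left₀ (by positivity) hkey 2
      rw [mul_pow] at e3
      have e4 : (1 + ε / 2) ^ 2 * ℓ ≤ (1 + ε) ^ 2 * (((1 - c) * n - 1) / n) ^ 2 * ℓ :=
        mul_le_mul_of_nonneg_right e3 (by linarith)
      have e5 : (1 + ε) * ℓ ≤ (1 + ε / 2) ^ 2 * ℓ :=
        mul_le_mul_of_nonneg_right (by nlinarith [sq_nonneg ε]) (by linarith)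
      have e6 : (1 + ε) ^ 2 * (((1 - c) * n - 1) / n) ^ 2 * ℓ =
          (1 + ε) ^ 2 * ℓ * (((1 - c) * n - 1) / n) ^ 2 := by ring
      linarith
    -- good event
    set LM : (Fin n → Fin n → Bool) → Prop := fun s => ∀ θ : Fin n → ℝ,
      IsLocalMin (En (Am s)) θ → ∀ i j : Fin n, ∃ k : ℤ, θ i - θ j = 2 * Real.pi * (k : ℝ)
      with hLM
    have hpt : ∀ s : Fin n → Fin n → Bool, W8 (δ n) s ≤ (if LM s then W8 (δ n) s else 0) +
        (if ¬ QB (fun i j => Am s i j - 2 * δ n) (15 * √n) then W8 (δ n) s else 0) +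
        ∑ i : Fin n, (if ∑ j, Am s i j < c * (2 * δ n) * n then W8 (δ n) s else 0) := by
      intro s
      have hW := W8_nonneg hδ0 hδ1 s
      have t1 : 0 ≤ (if LM s then W8 (δ n) s else 0) := by split_ifs <;> simp [hW]
      have t2 : 0 ≤ (if ¬ QB (fun i j => Am s i j - 2 * δ n) (15 * √n) then W8 (δ n) s else 0) := by
        split_ifs <;> simp [hW]
      have t3 : ∀ i ∈ (Finset.univ : Finset (Fin n)),
          0 ≤ (if ∑ j, Am s i j < c * (2 * δ n) * n then W8 (δ n) s else 0) := by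
        intro i _; split_ifs <;> simp [hW]
      have t3' := Finset.sum_nonneg t3
      by_cases hQ : QB (fun i j => Am s i j - 2 * δ n) (15 * √n)
      · by_cases hR : ∃ i : Fin n, ∑ j, Am s i j < c * (2 * δ n) * n
        · obtain ⟨i, hi⟩ := hR
          have := Finset.single_le_sum t3 (Finset.mem_univ i)
          rw [if_pos hi] at this
          linarith
        · push Not at hR
          have hsn : 0 < √(n : ℝ) := Real.sqrt_pos.2 hnR
          have hsq : √(n : ℝ) ^ 2 = n := Real.sq_sqrt hnR.le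
          have hL : LM s := by
            intro θ hθ
            refine det hFOC hSOC hRHO hCNT hn0 (Am s) (Am_symm s) (Am_diag s) μ (15 * √n) c hμ0
              (by positivity) hc0 hQ hR ?_ ?_ θ hθ
            · have h1 : (8 * (15 * √(n : ℝ))) ^ 2 ≤ (μ * n) ^ 2 := by
                have : (8 * (15 * √(n : ℝ))) ^ 2 = 14400 * n := by
                  rw [mul_pow, mul_pow, hsq]; ring
                rw [this]
                have : (μ * n) ^ 2 = (μ ^ 2 * n) * n := by ring
                rw [this]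
                exact mul_le_mul_of_nonneg_right (by linarith) hnR.le
              exact le_of_sq_le_sq h1 (by positivity)
            · have h1 : 16 * (15 * √(n : ℝ)) ^ 2 = 3600 * n := by
                rw [mul_pow, hsq]; ring
              have h2 : (c * μ * n) ^ 2 = c ^ 2 * (μ ^ 2 * n) * n := by ring
              rw [h1, h2]
              apply mul_lt_mul_of_pos_right _ hnR
              have h3 : c ^ 2 * (1800 / c ^ 2 + 1) ≤ c ^ 2 * ℓ :=
                mul_le_mul_of_nonneg_left hℓ2 (by positivity)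
              have h4 : c ^ 2 * (1800 / c ^ 2 + 1) = 1800 + c ^ 2 := by field_simp
              have h5 : c ^ 2 * (2 * ℓ) ≤ c ^ 2 * (μ ^ 2 * n) :=
                mul_le_mul_of_nonneg_left hμn1 (by positivity)
              have h6 : 0 < c ^ 2 := by positivity
              linarith
          rw [if_pos hL]
          linarith
      · rw [if_pos hQ]
        linarith
    have hsum := Finset.sum_le_sum (fun s (_ : s ∈ (Finset.univ :
      Finset (Fin n → Fin n → Bool))) => hpt s)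
    rw [hW1, Finset.sum_add_distrib, Finset.sum_add_distrib, Finset.sum_comm (s := Finset.univ)
      (t := Finset.univ) (f := fun s i => if ∑ j, Am s i j < c * (2 * δ n) * n then W8 (δ n) s
        else 0)] at hsum
    have hrs : ∑ i : Fin n, ∑ s : Fin n → Fin n → Bool,
        (if ∑ j, Am s i j < c * (2 * δ n) * n then W8 (δ n) s else 0) ≤
        Real.exp (-(ε * ℓ)) := by
      calc _ ≤ ∑ _i : Fin n, Real.exp (-((1 + ε) * ℓ)) := Finset.sum_le_sum fun i _ => hrow2 i
        _ = n * Real.exp (-((1 + ε) * ℓ)) := by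
            rw [Finset.sum_const, Finset.card_univ, Fintype.card_fin, nsmul_eq_mul]
        _ = Real.exp ℓ * Real.exp (-((1 + ε) * ℓ)) := by rw [hℓ, Real.exp_log hnR]
        _ = Real.exp (-(ε * ℓ)) := by rw [← Real.exp_add]; congr 1; ring
    linarith
  · filter_upwards with n
    obtain ⟨hδ0, hδ1⟩ := hδ n
    obtain ⟨hW1, -⟩ := hEXW n (δ n) hδ0 hδ1
    rw [← hW1]
    refine Finset.sum_le_sum fun s _ => ?_
    have := W8_nonneg hδ0 hδ1 s
    split_ifs <;> linarith

end

end Pool.Agent.Q295.KU
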