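import Mathlib

set_option autoImplicit false

/-!
# Project KU (helper295): global synchrony of random symmetric ±1 matrices (S19453)

All statements are self-contained; complete proofs in the docstrings.
-/

namespace Pool.Agent.Q295.KU

open Classical

noncomputable section

/-- The random symmetric sign matrix. -/
def Am {n : ℕ} (s : Fin n → Fin n → Bool) (i j : Fin n) : ℝ :=
  if i < j then (if s i j = true then (1 : ℝ) else -1)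
  else if j < i then (if s j i = true then (1 : ℝ) else -1) else 0

/-- The probability weight of `s`. -/
def W8 {n : ℕ} (δ : ℝ) (s : Fin n → Fin n → Bool) : ℝ :=
  ∏ i : Fin n, ∏ j : Fin n,
    (if i < j then (if s i j = true then (1/2 : ℝ) + δ else (1/2 : ℝ) - δ) else (1/2 : ℝ))

/-- The energy. -/
def En {n : ℕ} (A : Fin n → Fin n → ℝ) (φ : Fin n → ℝ) : ℝ :=
  (1/2 : ℝ) * ∑ i : Fin n, ∑ j : Fin n, A i j * (1 - Real.cos (φ i - φ j))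

/-- Quadratic form bound. -/
def QB {n : ℕ} (M : Fin n → Fin n → ℝ) (κ : ℝ) : Prop :=
  ∀ x : Fin n → ℝ, |∑ i, ∑ j, M i j * x i * x j| ≤ κ * ∑ i, x i ^ 2

/-- FOC.  First-order condition.  Proof: `t ↦ En A (Function.update θ i (θ i + t))` (or
`En A (θ + t • Pi.single i 1)`) has a local minimum at `0`, so its derivative
`∑ j, A i j * sin (θ i - θ j)` vanishes (`IsLocalMin.hasDerivAt_eq_zero`, or: with
`g t = En A (θ + t • x)`, `g' 0 = 1/2 ∑ i j A i j sin (θ i - θ j) (x i - x j)`, take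
`x = Pi.single i 1` and use the symmetry of `A`). -/
def S_FOC : Prop := ∀ (n : ℕ) (A : Fin n → Fin n → ℝ), (∀ i j, A i j = A j i) →
  ∀ θ : Fin n → ℝ, IsLocalMin (En A) θ → ∀ i, ∑ j, A i j * Real.sin (θ i - θ j) = 0

/-- SOC.  Second-order condition.  Proof: `En A (θ + t x) + En A (θ - t x) - 2 En A θ ≥ 0` for
small `t`, and this equals `∑ i j, A i j cos (θ i - θ j) (1 - cos (t (x i - x j)))` because
`cos (a + u) + cos (a - u) = 2 cos a cos u`.  Divide by `t^2` and let `t → 0`: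
`(1 - cos (t b))/t^2 → b^2/2` (`1 - cos u = 2 sin (u/2)^2`). -/
def S_SOC : Prop := ∀ (n : ℕ) (A : Fin n → Fin n → ℝ) (θ : Fin n → ℝ), IsLocalMin (En A) θ →
  ∀ x : Fin n → ℝ, 0 ≤ ∑ i, ∑ j, A i j * Real.cos (θ i - θ j) * (x i - x j) ^ 2

/-- SYM.  Proof (polarisation): for all `x`, `y`,
`4 ∑ M i j x i y j = q (x + y) - q (x - y) ≤ κ (‖x+y‖² + ‖x-y‖²) = 2 κ (‖x‖² + ‖y‖²)`, where `q` is
the quadratic form (symmetry of `M`).  Take `y i = (∑ j, M i j x j)/κ`: then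
`4 ‖Mx‖²/κ ≤ 2 κ ‖x‖² + 2 ‖Mx‖²/κ`. -/
def S_SYM : Prop := ∀ (n : ℕ) (M : Fin n → Fin n → ℝ) (κ : ℝ), 0 < κ → (∀ i j, M i j = M j i) →
  QB M κ → ∀ x : Fin n → ℝ, ∑ i, (∑ j, M i j * x j) ^ 2 ≤ κ ^ 2 * ∑ i, x i ^ 2

/-- RHO (the order parameter is large).

Proof.  Write `c i j = cos (θ i - θ j)`.  The second-order condition for `x = cos θ` and for
`x = sin θ`, added, gives `0 ≤ ∑ A c (2 - 2 c)` since
`(cos θ i - cos θ j)^2 + (sin θ i - sin θ j)^2 = 2 - 2 c i j`; so `∑ A c^2 ≤ ∑ A c`.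
With `A = μ + (A - μ)`: `∑ A c = μ R + ∑ (A - μ)(cos θ i cos θ j + sin θ i sin θ j) ≤ μ R + κ n`,
where `R = (∑ cos θ)^2 + (∑ sin θ)^2`, by `QB` for `cos θ` and `sin θ` (`∑ cos² + ∑ sin² = n`).
And `c^2 = (1 + cos 2θ i cos 2θ j + sin 2θ i sin 2θ j)/2`, so
`∑ A c^2 = μ ∑ c^2 + ∑ (A - μ) c^2 ≥ μ n²/2 - κ n` (`∑ c² = (n² + (∑ cos 2θ)² + (∑ sin 2θ)²)/2`,
and `QB` for `1`, `cos 2θ`, `sin 2θ`: at least `-(κ n + κ n)/2`).
So `μ R ≥ μ n²/2 - 2 κ n ≥ μ n²/4` because `8 κ ≤ μ n`. -/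
def S_RHO : Prop := ∀ (n : ℕ) (A : Fin n → Fin n → ℝ) (μ κ : ℝ) (θ : Fin n → ℝ), 0 < μ → 0 ≤ κ →
  QB (fun i j => A i j - μ) κ → 8 * κ ≤ μ * n →
  (∀ x : Fin n → ℝ, 0 ≤ ∑ i, ∑ j, A i j * Real.cos (θ i - θ j) * (x i - x j) ^ 2) →
  (n : ℝ) ^ 2 / 4 ≤ (∑ i, Real.cos (θ i)) ^ 2 + (∑ i, Real.sin (θ i)) ^ 2

/-- CNT (contraction).

Proof.  Let `S = √((∑ cos θ)² + (∑ sin θ)²) ≥ n/2 > 0`, `ρ = S/n ≥ 1/2`, and
`u i = (cos θ i ∑ cos θ + sin θ i ∑ sin θ)/S`, `v i = (sin θ i ∑ cos θ - cos θ i ∑ sin θ)/S` (rotation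
of `(cos θ i, sin θ i)`).  Then `u i² + v i² = 1`, `∑ u = S = n ρ`, `∑ v = 0`,
`u i u j + v i v j = cos (θ i - θ j)` and `v i u j - u i v j = sin (θ i - θ j)`.
Put `r i = ∑ j A i j cos (θ i - θ j) ≥ 0`.  From the two conditions,
`∑ j A i j u j = r i u i` and `∑ j A i j v j = r i v i`.
Let `w i = ∑ j (A i j - μ)(u j - ρ)`, `w' i = ∑ j (A i j - μ) v j`, `a i = ρ ∑ j A i j ≥ c μ n/2`.
Since `∑ (u j - ρ) = 0` and `∑ v = 0`: `r i u i = a i + w i`, `r i v i = w' i`.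
Claim: `a i² ((u i - 1)² + v i²) ≤ 4 (w i² + w' i²)`.  Indeed with the plane vectors
`z = (u i, v i)` (unit), `e = (1, 0)`: `a ‖z - e‖ ≤ ‖a z - r z‖ + ‖r z - a e‖ = |a - r| + ‖(w, w')‖` and
`|a - r| = |‖a e‖ - ‖r z‖| ≤ ‖(w, w')‖` (`r ≥ 0`, `a ≥ 0`).  (Algebraically: `w² + w'^2 =
r² - 2 a r u + a²` and `4 (r² - 2 a r u + a²) - a² (2 - 2 u) = (2 r - 2 a u)^2 ... ≥ 0`: in fact it
equals `4 (r - a u)² + a² (2 + 2 u - 4 u²)` and for `u < -1/2` use `r ≥ 0`; the norm argument is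
simpler.)
Sum over `i` and use `S_SYM` for `M = A - μ` with `x = u - ρ` and `x = v`:
`(c μ n/2)² ∑ ((u-1)² + v²) ≤ 4 κ² (∑ (u-ρ)² + ∑ v²) ≤ 4 κ² ∑ ((u-1)² + v²)`, the last step since
`∑ (u - ρ)² = ∑ (u-1)² - n (1 - ρ)²`.  As `16 κ² < (c μ n)²`, all `u i = 1` and `v i = 0`, and
`cos (θ i - θ j) = u i u j + v i v j = 1`. -/
def S_CNT : Prop := ∀ (n : ℕ) (A : Fin n → Fin n → ℝ) (μ κ c : ℝ) (θ : Fin n → ℝ), 0 < n →
  (∀ i j, A i j = A j i) → 0 < μ → 0 < κ → 0 < c →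
  QB (fun i j => A i j - μ) κ → (∀ i, c * μ * n ≤ ∑ j, A i j) → 16 * κ ^ 2 < (c * μ * n) ^ 2 →
  (∀ i, ∑ j, A i j * Real.sin (θ i - θ j) = 0) → (∀ i, 0 ≤ ∑ j, A i j * Real.cos (θ i - θ j)) →
  (n : ℝ) ^ 2 / 4 ≤ (∑ i, Real.cos (θ i)) ^ 2 + (∑ i, Real.sin (θ i)) ^ 2 →
  ∀ i j, Real.cos (θ i - θ j) = 1

/-- HOE (Hoeffding's lemma for a two-point law).  Proof: `ProbabilityTheory` has Hoeffding's lemma
(`hasSubgaussianMGF_of_mem_Icc`); or directly: for `p + q = 1`,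
`f b = b²/2 + b (p - q) - log (p e^b + q e^{-b})` has `f 0 = f' 0 = 0` and
`f'' = 1 - 4 p q/(p e^b + q e^{-b})² ≥ 0` by AM-GM. -/
def S_HOE : Prop := ∀ δ : ℝ, 0 ≤ δ → δ ≤ 1 / 2 → ∀ b : ℝ,
  (1 / 2 + δ) * Real.exp (b * (1 - 2 * δ)) + (1 / 2 - δ) * Real.exp (-(b * (1 + 2 * δ))) ≤
    Real.exp (b ^ 2 / 2)

/-- EXW (exponential moments).  Proof: the left side is
`∑ s, ∏ i, ∏ j, F i j (s i j)` with, for `i < j`, `F i j true = (1/2+δ) exp (b i j (1 - 2δ))`,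
`F i j false = (1/2-δ) exp (-(b i j)(1 + 2δ))`, and `F i j _ = 1/2` otherwise
(`Real.exp_sum`, `Finset.prod_mul_distrib`).  By `Finset.prod_univ_sum` twice (functions
`Fin n → Fin n → Bool`) it equals `∏ i, ∏ j, (F i j true + F i j false)`, each factor is at most
`exp (b i j ^2/2)` for `i < j` (`S_HOE`) and `1` otherwise.  With `b = 0` the sum of the weights is
exactly one. -/
def S_EXW : Prop := ∀ (n : ℕ) (δ : ℝ), 0 ≤ δ → δ ≤ 1 / 2 →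
  (∑ s : Fin n → Fin n → Bool, W8 δ s = 1) ∧
  ∀ b : Fin n → Fin n → ℝ,
    ∑ s : Fin n → Fin n → Bool, W8 δ s *
      Real.exp (∑ i, ∑ j, if i < j then b i j * (Am s i j - 2 * δ) else 0) ≤
    Real.exp (∑ i, ∑ j, if i < j then b i j ^ 2 / 2 else 0)

/-- ROW (row sums).  Proof: `∑ j, Am s i j < c 2δ n` is
`-∑_{j ≠ i} (Am s i j - 2δ) > 2δ (n - 1) - c 2δ n = 2δ((1-c) n - 1) =: t ≥ 0`.  With `lam = t/n` and
`b k l = -lam` if `k = i` or `l = i`, else `0`, the exponential inequality `1_{X > t} ≤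
exp (lam X - lam t)` and `S_EXW` give at most `exp (-lam t + lam² (n-1)/2) ≤ exp (-t²/(2n))`. -/
def S_ROW : Prop := ∀ (n : ℕ) (δ c : ℝ), 0 < n → 0 ≤ δ → δ ≤ 1 / 2 → 1 ≤ (1 - c) * n →
  ∀ i : Fin n, (∑ s : Fin n → Fin n → Bool,
    if ∑ j, Am s i j < c * (2 * δ) * n then W8 δ s else 0) ≤
      Real.exp (-((2 * δ * ((1 - c) * n - 1)) ^ 2 / (2 * n)))

/-- NET (a deterministic net).

Proof.  Let `q x = ∑ M i j x i x j`.  The set of `κ ≥ 0` with `QB M κ` is nonempty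
(`κ = ∑ |M i j|`, as `|x i x j| ≤ ∑ x²`) and bounded below; let `N` be its infimum; then `QB M N`
(let `κ ↓ N`).  Claim: `QB M (τ + N/2)`.  By homogeneity take `∑ x i ² = 1` (the case `x = 0` is
trivial), put `k i = ` the integer part of `4 √n x i` towards zero (so `|k i| ≤ 4 √n |x i|` and
`|k i - 4 √n x i| ≤ 1`), `y i = k i/(4√n)`.  Then `∑ k i² ≤ 16 n`, so `|q y| ≤ τ`, `∑ (x-y)² ≤ 1/16`,
`∑ (x + y)² ≤ 4`, and `q x - q y = ∑ M i j (x+y) i (x-y) j` (symmetry) is at most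
`N/2 * (∑ (t(x+y))² + ∑ (x-y)²/t²)` in absolute value for `t = 1/√8`... more simply, by `S_SYM` for
`N > 0` (or any `κ > N`) and Cauchy-Schwarz, `|q x - q y| ≤ N * 2 * (1/4) = N/2`.
Hence `N ≤ τ + N/2`, `N ≤ 2τ`. -/
def S_NET : Prop := ∀ (n : ℕ) (M : Fin n → Fin n → ℝ) (τ : ℝ), 0 < n → 0 ≤ τ →
  (∀ i j, M i j = M j i) →
  (∀ k : Fin n → ℤ, ∑ i, (k i : ℝ) ^ 2 ≤ 16 * n →
    |∑ i, ∑ j, M i j * (k i : ℝ) * (k j : ℝ)| ≤ 16 * n * τ) →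
  QB M (2 * τ)

/-- CNK (number of lattice points).  Proof: the number is at most
`∑ k, exp (1/2 (16 n - ∑ k i²)) = exp (8 n) * (∑_{|k| ≤ 4n} exp (-k²/2))^n` over the box
(`Finset.prod_univ_sum`), and `∑_{|k| ≤ 4n} exp (-k²/2) ≤ 1 + 2 ∑_{k ≥ 1} exp (-k/2) =
1 + 2/(exp (1/2) - 1) ≤ 1 + 4 = 5 ≤ exp 2` (`exp (1/2) ≥ 3/2`).  The box
`Fintype.piFinset fun _ => Finset.Icc (-(4 n)) (4 n)` contains all relevant points, since
`k i² ≤ 16 n ≤ (4 n)²`. -/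
def S_CNK : Prop := ∀ n : ℕ, 0 < n →
  ((((Fintype.piFinset fun _ : Fin n => Finset.Icc (-(4 * n : ℤ)) (4 * n)).filter
    fun k => ∑ i, (k i : ℝ) ^ 2 ≤ 16 * n).card : ℝ) ≤ Real.exp (10 * n))

/-- NRM (norm of the centred matrix).

Proof.  Let `M i j = Am s i j - 2δ` for `i ≠ j` and `M i i = 0`.  For `k : Fin n → ℤ` with
`∑ k² ≤ 16 n`, `∑ M i j k i k j = 2 ∑_{i<j} (Am - 2δ) k i k j`, and by `S_EXW` with
`b i j = ± lam 2 k i k j`, the probability that it exceeds `T = 16 n * 7 √n` in absolute value is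
at most `2 exp (-lam T + lam² 2 ∑_{i<j} k i² k j²) ≤ 2 exp (-lam T + lam² (16 n)²)`, equal to
`2 exp (-T²/(4 (16 n)²)) = 2 exp (-49 n/4)` for `lam = T/(2 (16 n)²)`.  The union over the at most
`exp (10 n)` points (`S_CNK`; points with `∑ k² ≤ 16 n` lie in the box) costs `2 exp (-2 n)`.
Outside this event `S_NET` gives `QB M (14 √n)`, and adding the diagonal `-2δ`, `|2δ| ≤ 1 ≤ √n`,
gives `QB (Am - 2δ) (15 √n)`. -/
def S_NRM : Prop := ∀ (n : ℕ) (δ : ℝ), 0 < n → 0 ≤ δ → δ ≤ 1 / 2 →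
  (∑ s : Fin n → Fin n → Bool,
    if ¬ QB (fun i j => Am s i j - 2 * δ) (15 * √n) then W8 δ s else 0) ≤
      2 * Real.exp (-(2 * n))

end

end Pool.Agent.Q295.KU
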